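import Pool.Agent.Helper60.SL.FromSysR

/-!
# The robust quadratic inequality
-/

set_option autoImplicit false

namespace Pool.Agent.RM

open Finset
open scoped Classical

/-- The quadratic inequality for arbitrary nonnegative weights `lam ≤ l` on the edges, with a
defect term for the pairs of edges which are not in conflict. -/
def RQF {W : Type} [Fintype W] (G : SimpleGraph W) (c C0 : ℝ) (D : ℕ) : Prop :=
  ∀ (lam : W → W → ℝ) (l : ℝ), (∀ x y, 0 ≤ lam x y) → (∀ x y, lam x y ≤ l) →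
    (∀ x y, lam x y = lam y x) → (∀ x y, lam x y ≠ 0 → G.Adj x y) →
    (∑ x, ∑ y, lam x y) ^ 2 ≤ 2 * ∑ x, ∑ y, lam x y ^ 2 * Helper60.SL.F G c D x y +
      C0 * l ^ 2 * ∑ x, ∑ y, ∑ u, ∑ v, (if lam x y ≠ 0 ∧ lam u v ≠ 0 ∧
        ¬ (G.Adj x u ∨ G.Adj x v ∨ G.Adj y u ∨ G.Adj y v) then (1 : ℝ) else 0)

theorem RQF.qf {W : Type} [Fintype W] {G : SimpleGraph W} {c C0 : ℝ} {D : ℕ}
    (h : RQF G c C0 D) : Helper60.SL.QF G c D :=
  Helper60.SL.QF_of_robust G c D h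

end Pool.Agent.RM
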