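import Mathlib

/-!
# Containers for almost cliques (Kleitman–Winston)
-/

set_option autoImplicit false

namespace Pool.Agent.Helper97.RM

open Finset
open scoped Classical

variable {V : Type*}

/-- **Containers.** `W` is the non-adjacency relation. -/
theorem containers {W : V → V → Prop} (s : ℕ) (hs : 0 < s) :
    ∀ A : Finset V, ∃ T : Finset (Finset V), T.card ≤ (A.card + 1) ^ (A.card / s) ∧
      (∀ C ∈ T, C ⊆ A ∧ ∀ v ∈ C, (C.filter (fun f => W v f)).card < s) ∧
      ∀ (l : ℕ) (F : Finset V), (∀ v ∈ F, (F.filter (fun f => W v f)).card ≤ l) →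
        ∃ C ∈ T, ((F ∩ A) \ C).card ≤ l * (A.card / s) := by
  intro A
  induction A using Finset.strongInduction with
  | H A ih =>
    by_cases hA : ∃ v ∈ A, s ≤ (A.filter (fun f => W v f)).card
    · obtain ⟨v, hvA, hv⟩ := hA
      have hsA : s ≤ A.card := hv.trans (card_filter_le _ _)
      set A' : Finset V := A.filter (fun f => ¬ W v f) with hA'
      have hc : (A.filter (fun f => W v f)).card + A'.card = A.card :=
        card_filter_add_card_filter_not _
      have hlt : A' ⊂ A := by
        refine (filter_subset _ _).ssubset_of_ne fun h => ?_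
        rw [← hA'] at h
        rw [h] at hc
        omega
      have h1 : (A.erase v).card = A.card - 1 := card_erase_of_mem hvA
      obtain ⟨T1, hT1c, hT1, hT1F⟩ := ih (A.erase v) (erase_ssubset hvA)
      obtain ⟨T2, hT2c, hT2, hT2F⟩ := ih A' hlt
      have hA'c : A'.card ≤ A.card - s := by omega
      have hdiv : A'.card / s + 1 ≤ A.card / s := by
        calc A'.card / s + 1 ≤ (A.card - s) / s + 1 :=
              Nat.add_le_add_right (Nat.div_le_div_right hA'c) 1
          _ = A.card / s := (Nat.div_eq_sub_div hs hsA).symm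
      refine ⟨T1 ∪ T2, ?_, ?_, ?_⟩
      · refine (card_union_le _ _).trans ?_
        obtain ⟨k, hk⟩ : ∃ k, A.card / s = k + 1 := by
          have hpos : 1 ≤ A.card / s := le_trans (Nat.le_add_left 1 _) hdiv
          exact ⟨A.card / s - 1, (Nat.sub_add_cancel hpos).symm⟩
        obtain ⟨a, ha⟩ : ∃ a, A.card = a + 1 := ⟨A.card - 1, by omega⟩
        have e1 : T1.card ≤ (a + 1) ^ (k + 1) := by
          refine hT1c.trans ?_
          rw [h1, ha, Nat.add_sub_cancel]
          refine Nat.pow_le_pow_right (Nat.succ_pos _) ?_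
          rw [← hk, ha]
          exact Nat.div_le_div_right (Nat.le_succ _)
        have hk2 : A'.card / s ≤ k := by
          rw [hk] at hdiv
          exact Nat.le_of_succ_le_succ hdiv
        have e2 : T2.card ≤ (a + 2) ^ k := by
          refine hT2c.trans ((Nat.pow_le_pow_left (show A'.card + 1 ≤ a + 2 by omega) _).trans ?_)
          exact Nat.pow_le_pow_right (Nat.succ_pos _) hk2
        rw [hk, ha]
        calc T1.card + T2.card ≤ (a + 1) ^ (k + 1) + (a + 2) ^ k := Nat.add_le_add e1 e2
          _ ≤ (a + 2) ^ k * (a + 1) + (a + 2) ^ k := by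
              refine Nat.add_le_add_right ?_ _
              rw [pow_succ]
              exact Nat.mul_le_mul_right _ (Nat.pow_le_pow_left (Nat.le_succ _) _)
          _ = (a + 1 + 1) ^ (k + 1) := by ring
      · intro C hC
        rcases mem_union.1 hC with h | h
        · exact ⟨(hT1 C h).1.trans (erase_subset _ _), (hT1 C h).2⟩
        · exact ⟨(hT2 C h).1.trans (filter_subset _ _), (hT2 C h).2⟩
      · intro l F hF
        by_cases hvF : v ∈ F
        · obtain ⟨C, hC, hCF⟩ := hT2F l F hF
          refine ⟨C, mem_union_right _ hC, ?_⟩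
          have hsub : (F ∩ A) \ C ⊆ ((F ∩ A') \ C) ∪ F.filter (fun f => W v f) := by
            intro x hx
            rw [mem_sdiff, mem_inter] at hx
            by_cases hw : W v x
            · exact mem_union_right _ (mem_filter.2 ⟨hx.1.1, hw⟩)
            · refine mem_union_left _ (mem_sdiff.2 ⟨mem_inter.2 ⟨hx.1.1, ?_⟩, hx.2⟩)
              exact mem_filter.2 ⟨hx.1.2, hw⟩
          calc ((F ∩ A) \ C).card ≤ (((F ∩ A') \ C) ∪ F.filter (fun f => W v f)).card :=
                card_le_card hsub
            _ ≤ ((F ∩ A') \ C).card + (F.filter (fun f => W v f)).card := card_union_le _ _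
            _ ≤ l * (A'.card / s) + l := Nat.add_le_add hCF (hF v hvF)
            _ = l * (A'.card / s + 1) := by ring
            _ ≤ l * (A.card / s) := Nat.mul_le_mul_left _ hdiv
        · obtain ⟨C, hC, hCF⟩ := hT1F l F hF
          refine ⟨C, mem_union_left _ hC, ?_⟩
          have he : F ∩ A = F ∩ A.erase v := by
            ext x
            rw [mem_inter, mem_inter, mem_erase]
            constructor
            · rintro ⟨h1, h2⟩
              exact ⟨h1, fun h => hvF (h ▸ h1), h2⟩
            · rintro ⟨h1, -, h2⟩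
              exact ⟨h1, h2⟩
          rw [he]
          refine hCF.trans (Nat.mul_le_mul_left _ (Nat.div_le_div_right ?_))
          rw [h1]
          exact Nat.sub_le _ _
    · push Not at hA
      refine ⟨{A}, ?_, ?_, ?_⟩
      · rw [card_singleton]
        exact Nat.one_le_pow _ _ (Nat.succ_pos _)
      · intro C hC
        rw [mem_singleton.1 hC]
        exact ⟨Subset.refl _, hA⟩
      · intro l F _
        refine ⟨A, mem_singleton_self _, ?_⟩
        have : (F ∩ A) \ A = ∅ := sdiff_eq_empty_iff_subset.2 inter_subset_right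
        rw [this, card_empty]
        exact Nat.zero_le _

/-- A set with few non-adjacent pairs is covered up to a small remainder. -/
theorem few_pairs {W : V → V → Prop} {T : Finset (Finset V)} {A : Finset V} {K : ℕ}
    (hT : ∀ (l : ℕ) (F : Finset V), (∀ v ∈ F, (F.filter (fun f => W v f)).card ≤ l) →
        ∃ C ∈ T, ((F ∩ A) \ C).card ≤ l * K) (l : ℕ) (F : Finset V) (hFA : F ⊆ A) :
    ∃ C ∈ T, (l + 1) * (F \ C).card ≤
      (∑ e ∈ F, (F.filter (fun f => W e f)).card) + (l + 1) * (l * K) := by
  set F0 : Finset V := F.filter (fun e => (F.filter (fun f => W e f)).card ≤ l) with hF0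
  obtain ⟨C, hC, hCF⟩ := hT l F0 (fun v hv => by
    refine (card_le_card ?_).trans (mem_filter.1 hv).2
    exact filter_subset_filter _ (filter_subset _ _))
  refine ⟨C, hC, ?_⟩
  have hF0A : F0 ∩ A = F0 := inter_eq_left.2 ((filter_subset _ _).trans hFA)
  rw [hF0A] at hCF
  have hsub : F \ C ⊆ (F0 \ C) ∪ F.filter (fun e => ¬ (F.filter (fun f => W e f)).card ≤ l) := by
    intro x hx
    rw [mem_sdiff] at hx
    by_cases h : (F.filter (fun f => W x f)).card ≤ l
    · exact mem_union_left _ (mem_sdiff.2 ⟨mem_filter.2 ⟨hx.1, h⟩, hx.2⟩)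
    · exact mem_union_right _ (mem_filter.2 ⟨hx.1, h⟩)
  have h1 : (F \ C).card ≤
      l * K + (F.filter (fun e => ¬ (F.filter (fun f => W e f)).card ≤ l)).card :=
    (card_le_card hsub).trans ((card_union_le _ _).trans (Nat.add_le_add_right hCF _))
  have h2 : (l + 1) * (F.filter (fun e => ¬ (F.filter (fun f => W e f)).card ≤ l)).card ≤
      ∑ e ∈ F, (F.filter (fun f => W e f)).card := by
    calc (l + 1) * (F.filter (fun e => ¬ (F.filter (fun f => W e f)).card ≤ l)).card
        = ∑ _e ∈ F.filter (fun e => ¬ (F.filter (fun f => W e f)).card ≤ l), (l + 1) := by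
          rw [sum_const, smul_eq_mul, mul_comm]
      _ ≤ ∑ e ∈ F.filter (fun e => ¬ (F.filter (fun f => W e f)).card ≤ l),
            (F.filter (fun f => W e f)).card :=
          sum_le_sum fun e he => by
            have := (mem_filter.1 he).2
            omega
      _ ≤ ∑ e ∈ F, (F.filter (fun f => W e f)).card :=
          sum_le_sum_of_subset (filter_subset _ _)
  calc (l + 1) * (F \ C).card ≤ (l + 1) *
        (l * K + (F.filter (fun e => ¬ (F.filter (fun f => W e f)).card ≤ l)).card) :=
        Nat.mul_le_mul_left _ h1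
    _ = (l + 1) * (F.filter (fun e => ¬ (F.filter (fun f => W e f)).card ≤ l)).card +
          (l + 1) * (l * K) := by ring
    _ ≤ _ := Nat.add_le_add_right h2 _

end Pool.Agent.Helper97.RM
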