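import Pool.Agent.Helper66.RM.State
import Pool.Agent.Helper97.RM.RQF

/-!
# The conflict graph of a regular graph, and the hypothesis on approximate cliques
-/

set_option autoImplicit false

namespace Pool.Agent.RM

open Finset
open scoped Classical

/-- The hypothesis on approximate cliques follows from a robust quadratic inequality. -/
theorem h2_of_rq {V : Type} [Fintype V] (H : SimpleGraph V) (κ : V → ℝ) {m κ0 C0 δ η : ℝ}
    (hm : 0 < m) (hκ0 : 0 < κ0) (hκ1 : ∀ e, κ0 * m ≤ κ e) (hC0 : 0 ≤ C0) (hδ : 0 ≤ δ)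
    (hη : C0 * η ≤ δ * κ0 ^ 2)
    (hRQ : ∀ (lam : V → ℝ) (L : ℝ), (∀ e, 0 ≤ lam e) → (∀ e, lam e ≤ L) → 0 ≤ L →
      (∑ e, lam e) ^ 2 ≤ ∑ e, lam e ^ 2 * κ e +
        C0 * L ^ 2 * ∑ e, ∑ f, (if lam e ≠ 0 ∧ lam f ≠ 0 then W H e f else 0)) :
    H2 H κ m η δ := by
  intro e0 S _ hW
  have hc : 0 < κ0 * m := mul_pos hκ0 hm
  have hκp : ∀ e, 0 < κ e := fun e => hc.trans_le (hκ1 e)
  have h1 := hRQ (fun e => if e ∈ S then 1 / κ e else 0) (1 / (κ0 * m))
    (fun e => by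
      split_ifs
      · exact (one_div_pos.2 (hκp e)).le
      · exact le_rfl)
    (fun e => by
      split_ifs
      · exact one_div_le_one_div_of_le hc (hκ1 e)
      · exact (one_div_pos.2 hc).le)
    (one_div_pos.2 hc).le
  set A := ∑ e ∈ S, 1 / κ e with hA
  have h2 : ∑ e, (if e ∈ S then 1 / κ e else 0) = A := by
    rw [← sum_filter, filter_mem_eq_inter, univ_inter]
  have h3 : ∑ e, (if e ∈ S then 1 / κ e else 0) ^ 2 * κ e = A := by
    rw [← h2]
    refine sum_congr rfl fun e _ => ?_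
    split_ifs
    · have := (hκp e).ne'
      field_simp
    · ring
  have h4 : ∑ e, ∑ f, (if (if e ∈ S then 1 / κ e else 0) ≠ 0 ∧
      (if f ∈ S then 1 / κ f else 0) ≠ 0 then W H e f else 0) ≤ ∑ e ∈ S, ∑ f ∈ S, W H e f := by
    rw [← sum_subset (subset_univ S) (fun e _ he => by
      refine sum_eq_zero fun f _ => if_neg fun h => ?_
      exact h.1 (if_neg he))]
    refine sum_le_sum fun e _ => ?_
    rw [← sum_subset (subset_univ S) (fun f _ hf => by
      refine if_neg fun h => ?_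
      exact h.2 (if_neg hf))]
    refine sum_le_sum fun f _ => ?_
    split_ifs
    · exact le_rfl
    · exact W_nonneg H e f
  have h5 : C0 * (1 / (κ0 * m)) ^ 2 * ∑ e, ∑ f, (if (if e ∈ S then 1 / κ e else 0) ≠ 0 ∧
      (if f ∈ S then 1 / κ f else 0) ≠ 0 then W H e f else 0) ≤ δ := by
    calc C0 * (1 / (κ0 * m)) ^ 2 * ∑ e, ∑ f, (if (if e ∈ S then 1 / κ e else 0) ≠ 0 ∧
          (if f ∈ S then 1 / κ f else 0) ≠ 0 then W H e f else 0)
        ≤ C0 * (1 / (κ0 * m)) ^ 2 * (η * m ^ 2) :=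
          mul_le_mul_of_nonneg_left (h4.trans hW) (by positivity)
      _ = C0 * η / κ0 ^ 2 := by
          have := hm.ne'
          have := hκ0.ne'
          field_simp
      _ ≤ δ := by
          rw [div_le_iff₀ (by positivity)]
          exact hη
  rw [h2, h3] at h1
  have h6 : A ^ 2 ≤ A + δ := h1.trans (by linarith)
  by_contra hcon
  push Not at hcon
  nlinarith

variable {V : Type}

/-- The conflict graph on the edges of `G`. -/
def cg (G : SimpleGraph V) : SimpleGraph {e : Sym2 V // e ∈ G.edgeSet} where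
  Adj e f := e ≠ f ∧ Helper60.SL.Cf G e f
  symm := ⟨fun _ _ h => ⟨h.1.symm, Helper60.SL.Cf_symm h.2⟩⟩
  loopless := ⟨fun _ h => h.1 rfl⟩

variable [Fintype V]

theorem nb_cg (G : SimpleGraph V) (e : {e : Sym2 V // e ∈ G.edgeSet}) :
    nb (cg G) e = Helper60.SL.cn (Helper60.SL.Cf G) e := by
  ext f
  rw [mem_nb, Helper60.SL.mem_cn]
  constructor
  · rintro (h | h)
    · exact Or.inl h
    · exact Or.inr h.2
  · rintro (h | h)
    · exact Or.inl h
    · by_cases he : f = e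
      · exact Or.inl he
      · exact Or.inr ⟨fun h' => he h'.symm, h⟩

omit [Fintype V] in
theorem ori_surj {G : SimpleGraph V} {p : V × V} (h : G.Adj p.1 p.2) :
    ∃ i : {e : Sym2 V // e ∈ G.edgeSet} × Bool, Helper60.SL.ori i = p := by
  have h1 := (Helper60.SL.ends (⟨s(p.1, p.2), h⟩ : {e : Sym2 V // e ∈ G.edgeSet})).choose_spec.1
  rcases Sym2.eq_iff.1 h1 with ⟨h2, h3⟩ | ⟨h2, h3⟩
  · refine ⟨(⟨s(p.1, p.2), h⟩, true), ?_⟩
    unfold Helper60.SL.ori
    rw [if_pos rfl]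
    exact Prod.ext h2.symm h3.symm
  · refine ⟨(⟨s(p.1, p.2), h⟩, false), ?_⟩
    unfold Helper60.SL.ori
    rw [if_neg (by simp)]
    exact Prod.ext h2.symm h3.symm

theorem sum_ori (G : SimpleGraph V) (φ : V × V → ℝ) (hφ : ∀ p, ¬ G.Adj p.1 p.2 → φ p = 0) :
    ∑ p, φ p = ∑ i : {e : Sym2 V // e ∈ G.edgeSet} × Bool, φ (Helper60.SL.ori i) := by
  rw [← sum_image (s := (univ : Finset ({e : Sym2 V // e ∈ G.edgeSet} × Bool)))
    (g := Helper60.SL.ori) (f := φ) (fun i _ j _ h => Helper60.SL.ori_inj h)]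
  refine (sum_subset (subset_univ _) fun p _ hp => hφ p fun h => hp ?_).symm
  obtain ⟨i, hi⟩ := ori_surj h
  exact mem_image.2 ⟨i, mem_univ _, hi⟩

theorem sum_ori' (G : SimpleGraph V) (φ : V → V → ℝ) (hφ : ∀ x y, ¬ G.Adj x y → φ x y = 0) :
    ∑ x, ∑ y, φ x y = ∑ i : {e : Sym2 V // e ∈ G.edgeSet} × Bool,
      φ (Helper60.SL.ori i).1 (Helper60.SL.ori i).2 := by
  rw [← Fintype.sum_prod_type']
  exact sum_ori G (fun p => φ p.1 p.2) (fun p hp => hφ _ _ hp)

theorem sum_bool (G : SimpleGraph V) (g : {e : Sym2 V // e ∈ G.edgeSet} → ℝ) :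
    ∑ i : {e : Sym2 V // e ∈ G.edgeSet} × Bool, g i.1 = 2 * ∑ e, g e := by
  rw [Fintype.sum_prod_type, mul_sum]
  refine sum_congr rfl fun e _ => ?_
  show ∑ _y : Bool, g e = 2 * g e
  rw [sum_const, card_univ, Fintype.card_bool, nsmul_eq_mul]
  push_cast
  ring

/-- The robust inequality on the conflict graph. -/
theorem rq_of_rqf {G : SimpleGraph V} {c C0 : ℝ} {D : ℕ} (hC0 : 0 ≤ C0)
    (hreg : ∀ x, Helper60.SL.dg G x = D) (hR : RQF G c C0 D)
    (l : {e : Sym2 V // e ∈ G.edgeSet} → ℝ) (L : ℝ) (hl : ∀ e, 0 ≤ l e) (hlL : ∀ e, l e ≤ L)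
    (hL : 0 ≤ L) :
    (∑ e, l e) ^ 2 ≤ ∑ e, l e ^ 2 * (2 * (c * (D : ℝ) ^ 2) - ((nb (cg G) e).card : ℝ)) +
      C0 * L ^ 2 * ∑ e, ∑ f, (if l e ≠ 0 ∧ l f ≠ 0 then W (cg G) e f else 0) := by
  set lam : V → V → ℝ := fun x y => if h : G.Adj x y then l ⟨s(x, y), h⟩ else 0 with hlam
  have hl0 : ∀ x y, 0 ≤ lam x y := by
    intro x y
    simp only [hlam]
    split_ifs
    · exact hl _
    · exact le_rfl
  have hlL' : ∀ x y, lam x y ≤ L := by
    intro x y
    simp only [hlam]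
    split_ifs
    · exact hlL _
    · exact hL
  have hls : ∀ x y, lam x y = lam y x := by
    intro x y
    simp only [hlam]
    by_cases h : G.Adj x y
    · have h2 : (⟨s(x, y), h⟩ : {e : Sym2 V // e ∈ G.edgeSet}) = ⟨s(y, x), h.symm⟩ :=
        Subtype.ext Sym2.eq_swap
      rw [dif_pos h, dif_pos h.symm, h2]
    · rw [dif_neg h, dif_neg (fun h' => h h'.symm)]
  have hl1 : ∀ x y, ¬ G.Adj x y → lam x y = 0 := fun x y h => by
    simp only [hlam]
    exact dif_neg h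
  have hori : ∀ i : {e : Sym2 V // e ∈ G.edgeSet} × Bool,
      lam (Helper60.SL.ori i).1 (Helper60.SL.ori i).2 = l i.1 := by
    intro i
    obtain ⟨h1, h2⟩ := Helper60.SL.ori_spec i
    simp only [hlam]
    rw [dif_pos h2]
    congr 1
    exact Subtype.ext h1.symm
  have hmain := hR lam L hl0 hlL' hls (fun x y h => by
    by_contra hcon
    exact h (hl1 x y hcon))
  have e1 : ∑ x, ∑ y, lam x y = 2 * ∑ e, l e := by
    rw [sum_ori' G lam hl1, ← sum_bool]
    exact sum_congr rfl fun i _ => hori i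
  have e2 : ∑ x, ∑ y, lam x y ^ 2 * Helper60.SL.F G c D x y ≤
      2 * ∑ e, l e ^ 2 * (2 * (c * (D : ℝ) ^ 2) - ((nb (cg G) e).card : ℝ)) := by
    rw [sum_ori' G (fun x y => lam x y ^ 2 * Helper60.SL.F G c D x y) (fun x y h => by
      rw [hl1 x y h]
      ring), ← sum_bool]
    refine sum_le_sum fun i _ => ?_
    rw [hori i]
    refine mul_le_mul_of_nonneg_left ?_ (sq_nonneg _)
    have h3 := Helper60.SL.F_le (c := c) hreg i.1 _ _ (Helper60.SL.ori_spec i).1
      (Helper60.SL.ori_spec i).2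
    rw [nb_cg]
    linarith
  have e3 : ∑ x, ∑ y, ∑ u, ∑ v, (if lam x y ≠ 0 ∧ lam u v ≠ 0 ∧
      ¬ (G.Adj x u ∨ G.Adj x v ∨ G.Adj y u ∨ G.Adj y v) then (1 : ℝ) else 0) ≤
      4 * ∑ e, ∑ f, (if l e ≠ 0 ∧ l f ≠ 0 then W (cg G) e f else 0) := by
    rw [sum_ori' G (fun x y => ∑ u, ∑ v, (if lam x y ≠ 0 ∧ lam u v ≠ 0 ∧
      ¬ (G.Adj x u ∨ G.Adj x v ∨ G.Adj y u ∨ G.Adj y v) then (1 : ℝ) else 0))
      (fun x y h => sum_eq_zero fun u _ => sum_eq_zero fun v _ =>
        if_neg fun h' => h'.1 (hl1 x y h))]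
    have h4 : ∀ i : {e : Sym2 V // e ∈ G.edgeSet} × Bool,
        (∑ u, ∑ v, (if lam (Helper60.SL.ori i).1 (Helper60.SL.ori i).2 ≠ 0 ∧ lam u v ≠ 0 ∧
          ¬ (G.Adj (Helper60.SL.ori i).1 u ∨ G.Adj (Helper60.SL.ori i).1 v ∨
          G.Adj (Helper60.SL.ori i).2 u ∨ G.Adj (Helper60.SL.ori i).2 v) then (1 : ℝ) else 0)) ≤
        2 * ∑ f, (if l i.1 ≠ 0 ∧ l f ≠ 0 then W (cg G) i.1 f else 0) := by
      intro i
      rw [sum_ori' G (fun u v => (if lam (Helper60.SL.ori i).1 (Helper60.SL.ori i).2 ≠ 0 ∧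
          lam u v ≠ 0 ∧ ¬ (G.Adj (Helper60.SL.ori i).1 u ∨ G.Adj (Helper60.SL.ori i).1 v ∨
          G.Adj (Helper60.SL.ori i).2 u ∨ G.Adj (Helper60.SL.ori i).2 v) then (1 : ℝ) else 0))
        (fun u v h => if_neg fun h' => h'.2.1 (hl1 u v h)), ← sum_bool]
      refine sum_le_sum fun j _ => ?_
      rw [hori i, hori j]
      have h5 : (0 : ℝ) ≤ (if l i.1 ≠ 0 ∧ l j.1 ≠ 0 then W (cg G) i.1 j.1 else 0) := by
        split_ifs
        · exact W_nonneg _ _ _
        · exact le_rfl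
      by_cases h6 : l i.1 ≠ 0 ∧ l j.1 ≠ 0 ∧ ¬ (G.Adj (Helper60.SL.ori i).1 (Helper60.SL.ori j).1 ∨
          G.Adj (Helper60.SL.ori i).1 (Helper60.SL.ori j).2 ∨
          G.Adj (Helper60.SL.ori i).2 (Helper60.SL.ori j).1 ∨
          G.Adj (Helper60.SL.ori i).2 (Helper60.SL.ori j).2)
      swap
      · rw [if_neg h6]
        exact h5
      · rw [if_pos h6, if_pos ⟨h6.1, h6.2.1⟩]
        have h6' := h6.2.2
        push Not at h6'
        obtain ⟨h7, h8, h9, h10⟩ := h6'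
        have hW : W (cg G) i.1 j.1 = 1 := by
          unfold W
          refine if_neg fun h11 => ?_
          obtain ⟨hi1, hi2⟩ := Helper60.SL.ori_spec i
          obtain ⟨hj1, hj2⟩ := Helper60.SL.ori_spec j
          rw [nb_cg, Helper60.SL.mem_cn] at h11
          rcases h11 with h12 | ⟨u, hu, v, hv, h12⟩
          · have h13 : (Helper60.SL.ori j).1 ∈ i.1.1 := by
              rw [← h12, hj1]
              exact Sym2.mem_mk_left _ _
            rw [hi1, Sym2.mem_iff] at h13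
            rcases h13 with h13 | h13
            · rw [h13] at hj2
              exact h8 hj2
            · rw [h13] at hj2
              exact h10 hj2
          · rw [hi1, Sym2.mem_iff] at hu
            rw [hj1, Sym2.mem_iff] at hv
            rcases hu with rfl | rfl <;> rcases hv with rfl | rfl <;> rcases h12 with h12 | h12
            · rw [h12] at h8
              exact h8 hj2
            · exact h7 h12
            · rw [h12] at h7
              exact h7 hj2.symm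
            · exact h8 h12
            · rw [h12] at h10
              exact h10 hj2
            · exact h9 h12
            · rw [h12] at h9
              exact h9 hj2.symm
            · exact h10 h12
        rw [hW]
    refine (sum_le_sum fun i _ => h4 i).trans (le_of_eq ?_)
    rw [← mul_sum, sum_bool G (fun e => ∑ f, (if l e ≠ 0 ∧ l f ≠ 0 then W (cg G) e f else 0))]
    ring
  rw [e1] at hmain
  have h5 := mul_le_mul_of_nonneg_left e3 (mul_nonneg hC0 (sq_nonneg L))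
  linarith

theorem card_nb_cg {G : SimpleGraph V} {D : ℕ} (hreg : ∀ x, Helper60.SL.dg G x = D)
    (e : {e : Sym2 V // e ∈ G.edgeSet}) : ((nb (cg G) e).card : ℝ) ≤ 2 * (D : ℝ) ^ 2 := by
  obtain ⟨⟨x, y⟩, h1, h2⟩ := Helper60.SL.ends e
  have h3 := Helper60.SL.card_cn e x y h1 h2
  have h4 := Helper60.SL.card_out hreg x y
  have h5 := Helper60.SL.card_un_le hreg x y
  have h6 : (Helper60.SL.cn (Helper60.SL.Cf G) e).card ≤ 2 * D * D := by
    have h7 : (Helper60.SL.un G x y).card * D ≤ 2 * D * D := Nat.mul_le_mul_right _ h5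
    omega
  rw [nb_cg]
  calc ((Helper60.SL.cn (Helper60.SL.Cf G) e).card : ℝ) ≤ ((2 * D * D : ℕ) : ℝ) := by
        exact_mod_cast h6
    _ = 2 * (D : ℝ) ^ 2 := by
        push_cast
        ring

/-- The hypothesis on approximate cliques for the conflict graph. -/
theorem h2_cg {G : SimpleGraph V} {C0 δ η : ℝ} {D : ℕ} (hD : 1 ≤ D) (hC0 : 0 ≤ C0)
    (hδ : 0 ≤ δ) (hη : C0 * η ≤ δ / 4) (hreg : ∀ x, Helper60.SL.dg G x = D)
    (hR : RQF G (5 / 4) C0 D) :
    H2 (cg G) (fun e => 2 * (5 / 4 * (D : ℝ) ^ 2) - ((nb (cg G) e).card : ℝ)) ((D : ℝ) ^ 2)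
      η δ := by
  have hD' : (1 : ℝ) ≤ D := by exact_mod_cast hD
  refine h2_of_rq (cg G) _ (κ0 := 1 / 2) (C0 := C0) (by positivity) (by norm_num) ?_ hC0 hδ ?_
    (fun l L hl hlL hL => rq_of_rqf hC0 hreg hR l L hl hlL hL)
  · intro e
    have := card_nb_cg hreg e
    linarith
  · linarith

end Pool.Agent.RM
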