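import Pool.Agent.Helper66.RM.Main
import Pool.Agent.Helper97.RM.App

/-!
# The strong chromatic index of graphs of large maximum degree, from the robust inequality
-/

set_option autoImplicit false

namespace Pool.Agent.RM

open Finset
open scoped Classical

/-- A colouring from a cover by independent sets. -/
theorem Cover.colour {E : Type} [Fintype E] {H : SimpleGraph E} {t : ℝ}
    (h : Cover H (Set.univ : Set E) t) :
    ∃ c : E → ℕ, (∀ e, (c e : ℝ) + 1 ≤ t) ∧ ∀ e f, H.Adj e f → c e ≠ c f := by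
  obtain ⟨𝓜, h1, h2, h3⟩ := h
  choose M hM hMe using fun e => h3 e (Set.mem_univ e)
  refine ⟨fun e => (𝓜.equivFin ⟨M e, hM e⟩ : ℕ), ?_, ?_⟩
  · intro e
    refine le_trans ?_ h1
    have := (𝓜.equivFin ⟨M e, hM e⟩).isLt
    exact_mod_cast this
  · intro e f hef h4
    have h5 : (⟨M e, hM e⟩ : 𝓜) = ⟨M f, hM f⟩ := 𝓜.equivFin.injective (Fin.ext h4)
    have h6 : M e = M f := congrArg Subtype.val h5
    have h7 := (mem_ind.1 (h2 _ (hM e))).2 e (hMe e) f (h6 ▸ hMe f)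
    exact h7 hef

/-- Strong edge colourings from the robust inequality. -/
theorem five_fourths
    (hR : ∃ C0 : ℝ, 0 ≤ C0 ∧ ∀ (W : Type) [Fintype W] (G : SimpleGraph W) (D : ℕ), 1 ≤ D →
      (∀ x, Helper60.SL.dg G x = D) → RQF G (5 / 4) C0 D) (ε : ℝ) (hε : 0 < ε) :
    ∃ D0 : ℕ, ∀ (V : Type) [Fintype V] (G : SimpleGraph V) (D : ℕ), D0 ≤ D →
      (∀ x, Helper60.SL.dg G x ≤ D) →
      ∃ c : V → V → ℕ, (∀ u v, G.Adj u v → c u v = c v u) ∧
        (∀ u v x y, G.Adj u v → G.Adj x y → ¬ ((u = x ∧ v = y) ∨ (u = y ∧ v = x)) →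
          (u = x ∨ u = y ∨ v = x ∨ v = y ∨
            G.Adj u x ∨ G.Adj u y ∨ G.Adj v x ∨ G.Adj v y) → c u v ≠ c x y) ∧
        ∀ u v, G.Adj u v → (c u v : ℝ) + 1 ≤ (5 / 4 + ε) * (D : ℝ) ^ 2 := by
  obtain ⟨C0, hC0, hR⟩ := hR
  obtain ⟨δ, hδ, hm⟩ := reed_machine (5 / 4) (1 / 2) ε (by norm_num) (by norm_num) hε
  obtain ⟨m0, hm0⟩ := hm (δ / (4 * (C0 + 1))) (by positivity)
  refine ⟨max 1 ⌈m0⌉₊, ?_⟩
  intro V _ G D hD hdeg
  have hD1 : 1 ≤ D := (le_max_left _ _).trans hD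
  have hD2 : m0 ≤ D := (Nat.le_ceil m0).trans (by exact_mod_cast (le_max_right _ _).trans hD)
  have hD' : (1 : ℝ) ≤ D := by exact_mod_cast hD1
  obtain ⟨W, fW, H, φ, hH, hφ, hadj, _⟩ := Helper60.SL.exists_regular D D V G hdeg
    (fun x => by omega)
  have hη : C0 * (δ / (4 * (C0 + 1))) ≤ δ / 4 := by
    have h1 : C0 / (C0 + 1) ≤ 1 := by
      rw [div_le_one (by positivity)]
      linarith
    calc C0 * (δ / (4 * (C0 + 1))) = C0 / (C0 + 1) * (δ / 4) := by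
          field_simp
      _ ≤ 1 * (δ / 4) := mul_le_mul_of_nonneg_right h1 (by positivity)
      _ = δ / 4 := one_mul _
  have hcov := hm0 ((D : ℝ) ^ 2) (hD2.trans (by nlinarith)) _ (cg H) (fun e => by
    have := card_nb_cg hH e
    linarith) (h2_cg hD1 hC0 hδ.le hη hH (hR W H D hD1 hH))
  obtain ⟨c, hc1, hc2⟩ := hcov.colour
  refine ⟨fun u v => if h : G.Adj u v then c ⟨s(φ u, φ v), hadj u v h⟩ else 0, ?_, ?_, ?_⟩
  · intro u v h
    have h2 : (⟨s(φ u, φ v), hadj u v h⟩ : {e : Sym2 W // e ∈ H.edgeSet}) =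
        ⟨s(φ v, φ u), hadj v u h.symm⟩ := Subtype.ext Sym2.eq_swap
    simp only
    rw [dif_pos h, dif_pos h.symm, h2]
  · intro u v x y huv hxy hne hor
    simp only
    rw [dif_pos huv, dif_pos hxy]
    refine hc2 _ _ ⟨?_, ?_⟩
    · intro h
      have h3 : s(φ u, φ v) = s(φ x, φ y) := congrArg Subtype.val h
      rcases Sym2.eq_iff.1 h3 with ⟨a, b⟩ | ⟨a, b⟩
      · exact hne (Or.inl ⟨hφ a, hφ b⟩)
      · exact hne (Or.inr ⟨hφ a, hφ b⟩)
    · have hu : φ u ∈ s(φ u, φ v) := Sym2.mem_mk_left _ _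
      have hv : φ v ∈ s(φ u, φ v) := Sym2.mem_mk_right _ _
      have hx : φ x ∈ s(φ x, φ y) := Sym2.mem_mk_left _ _
      have hy : φ y ∈ s(φ x, φ y) := Sym2.mem_mk_right _ _
      rcases hor with h | h | h | h | h | h | h | h
      · exact ⟨_, hu, _, hx, Or.inl (congrArg φ h)⟩
      · exact ⟨_, hu, _, hy, Or.inl (congrArg φ h)⟩
      · exact ⟨_, hv, _, hx, Or.inl (congrArg φ h)⟩
      · exact ⟨_, hv, _, hy, Or.inl (congrArg φ h)⟩
      · exact ⟨_, hu, _, hx, Or.inr (hadj _ _ h)⟩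
      · exact ⟨_, hu, _, hy, Or.inr (hadj _ _ h)⟩
      · exact ⟨_, hv, _, hx, Or.inr (hadj _ _ h)⟩
      · exact ⟨_, hv, _, hy, Or.inr (hadj _ _ h)⟩
  · intro u v h
    simp only
    rw [dif_pos h]
    exact hc1 _

end Pool.Agent.RM
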