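import Mathlib

/-!
# Numbers for the approximate Reed machine
-/

set_option autoImplicit false

namespace Pool.Agent.RM

open Finset

/-- The exponentially small probability beats the number of neighbouring events. -/
theorem exp_small' (c C : ℝ) (hc : 0 < c) (hC : 0 ≤ C) (k : ℕ) : ∃ m0 : ℝ, 1 ≤ m0 ∧
    ∀ m : ℝ, m0 ≤ m → ∀ D : ℕ, (D : ℝ) ≤ C * m →
      4 * (2 * Real.exp (-(c * m))) * ((((D + 2) ^ k + 1) * D ^ 5 : ℕ) : ℝ) ≤ 1 := by
  have h1 := Real.tendsto_pow_mul_exp_neg_atTop_nhds_zero (k + 5)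
  set B : ℝ := c ^ (k + 5) / (16 * (C + 2) ^ (k + 5)) with hB
  have hB0 : 0 < B := by positivity
  have h2 := (h1.eventually (gt_mem_nhds hB0)).exists_forall_of_atTop
  obtain ⟨x0, hx0⟩ := h2
  refine ⟨max 1 (x0 / c), le_max_left _ _, ?_⟩
  intro m hm D hD
  have hm1 : 1 ≤ m := (le_max_left _ _).trans hm
  have hm2 : x0 ≤ c * m := by
    have := (le_max_right _ _).trans hm
    rw [div_le_iff₀ hc] at this
    linarith
  have h3 := (hx0 (c * m) hm2).le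
  have h4 : m ^ (k + 5) * Real.exp (-(c * m)) ≤ 1 / (16 * (C + 2) ^ (k + 5)) := by
    have h5 : c ^ (k + 5) * (m ^ (k + 5) * Real.exp (-(c * m))) ≤
        c ^ (k + 5) * (1 / (16 * (C + 2) ^ (k + 5))) := by
      calc c ^ (k + 5) * (m ^ (k + 5) * Real.exp (-(c * m)))
          = (c * m) ^ (k + 5) * Real.exp (-(c * m)) := by ring
        _ ≤ B := h3
        _ = c ^ (k + 5) * (1 / (16 * (C + 2) ^ (k + 5))) := by rw [hB]; ring
    exact le_of_mul_le_mul_left h5 (by positivity)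
  have h6 : ((((D + 2) ^ k + 1) * D ^ 5 : ℕ) : ℝ) ≤ 2 * ((C + 2) * m) ^ (k + 5) := by
    have h7 : ((D + 2) ^ k + 1) * D ^ 5 ≤ 2 * (D + 2) ^ (k + 5) := by
      have e1 : 1 ≤ (D + 2) ^ k := Nat.one_le_pow _ _ (Nat.succ_pos _)
      calc ((D + 2) ^ k + 1) * D ^ 5 ≤ ((D + 2) ^ k + (D + 2) ^ k) * (D + 2) ^ 5 :=
            Nat.mul_le_mul (Nat.add_le_add_left e1 _)
              (Nat.pow_le_pow_left (Nat.le_add_right _ _) _)
        _ = 2 * (D + 2) ^ (k + 5) := by ring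
    have h8 : ((D : ℝ) + 2) ≤ (C + 2) * m := by nlinarith
    calc ((((D + 2) ^ k + 1) * D ^ 5 : ℕ) : ℝ) ≤ ((2 * (D + 2) ^ (k + 5) : ℕ) : ℝ) := by
          exact_mod_cast h7
      _ = 2 * ((D : ℝ) + 2) ^ (k + 5) := by push_cast; ring
      _ ≤ 2 * ((C + 2) * m) ^ (k + 5) := by gcongr
  calc 4 * (2 * Real.exp (-(c * m))) * ((((D + 2) ^ k + 1) * D ^ 5 : ℕ) : ℝ)
      ≤ 4 * (2 * Real.exp (-(c * m))) * (2 * ((C + 2) * m) ^ (k + 5)) := by gcongr
    _ = 16 * (C + 2) ^ (k + 5) * (m ^ (k + 5) * Real.exp (-(c * m))) := by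
        rw [mul_pow (C + 2) m (k + 5)]; ring
    _ ≤ 16 * (C + 2) ^ (k + 5) * (1 / (16 * (C + 2) ^ (k + 5))) := by gcongr
    _ = 1 := by
        have : (16 * (C + 2) ^ (k + 5)) ≠ 0 := by positivity
        field_simp

/-- The exponentially small probability beats the number of neighbouring events. -/
theorem exp_small (c C : ℝ) (hc : 0 < c) (hC : 0 ≤ C) (k : ℕ) : ∃ m0 : ℝ, ∀ m : ℝ, m0 ≤ m →
    ∀ D : ℕ, (D : ℝ) ≤ C * m →
      4 * (2 * Real.exp (-(c * m))) * ((((D + 2) ^ k + 1) * D ^ 5 : ℕ) : ℝ) ≤ 1 := by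
  obtain ⟨m0, -, h⟩ := exp_small' c C hc hC k
  exact ⟨m0, h⟩

end Pool.Agent.RM
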